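import Mathlib
import Pool.Agent.H44Z.PropTDefs
import Pool.Agent.H44Z.PropTMain

set_option autoImplicit false

namespace Pool.Agent.Results.MP_898cae_lc.APropTContinuum

/-- The least cardinality of a maximal subalgebra of the Borel algebra of the Cantor space with
property (T) is the continuum. -/
theorem result : Pool.Agent.H44Z.PropT.propT = Cardinal.continuum :=
  Pool.Agent.H44Z.PropT.propT_eq

end Pool.Agent.Results.MP_898cae_lc.APropTContinuum
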